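import Mathlib
import Pool.Agent.H964.QC.Stm

/-!
# Project QC, task M2: second moments (exact), mean and expected overlap after a block
-/

set_option autoImplicit false

open MeasureTheory ProbabilityTheory Filter Finset

namespace Pool.Agent.H200.QC

open Pool.Agent.H964.QC

variable {V : Type} [Fintype V] [DecidableEq V] {C0 : ℝ} {N0 : ℕ}

theorem wt_zero (W : Wlk V C0 N0) (w : V → ℝ) : wt W w 0 = w := by
  ext z
  unfold wt
  simp only [W.K_zero]
  simp

theorem wt_add (W : Wlk V C0 N0) (w : V → ℝ) (m k : ℕ) (z : V) :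
    wt W w (m + k) z = ∑ y, wt W w m y * W.K k y z := by
  unfold wt
  simp only [W.K_add, Finset.mul_sum, Finset.sum_mul]
  rw [Finset.sum_comm]
  refine Finset.sum_congr rfl fun y _ => Finset.sum_congr rfl fun x _ => by ring

theorem wt_nonneg (W : Wlk V C0 N0) (w : V → ℝ) (hw : ∀ x, 0 ≤ w x) (m : ℕ) (z : V) :
    0 ≤ wt W w m z :=
  Finset.sum_nonneg fun x _ => mul_nonneg (hw x) (W.K_nonneg m x z)

theorem wt_sum (W : Wlk V C0 N0) (w : V → ℝ) (m : ℕ) : ∑ z, wt W w m z = ∑ z, w z := by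
  unfold wt
  rw [Finset.sum_comm]
  refine Finset.sum_congr rfl fun x _ => ?_
  rw [← Finset.mul_sum, W.K_sum, mul_one]

theorem sumK_sq (W : Wlk V C0 N0) (n : ℕ) (z : V) : ∑ y, (W.K n z y) ^ 2 = W.K (2 * n) z z := by
  rw [two_mul, W.K_add]
  refine Finset.sum_congr rfl fun y _ => ?_
  rw [W.K_symm n y z, sq]

theorem XX_step (W : Wlk V C0 N0) (w : V → ℝ) (T j : ℕ) (hj : j + 1 ≤ T) (x : ℕ → V → ℝ) :
    XX W w T x (j + 1) =
      XX W w T x j + ∑ z, (wt W w (T - j) z * Zr W x j z) * x (j + 1) z := by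
  obtain ⟨m, rfl⟩ := Nat.exists_eq_add_of_le hj
  have h1 : j + 1 + m - (j + 1) = m := by omega
  have h2 : j + 1 + m - j = m + 1 := by omega
  unfold XX
  rw [h1, h2]
  have h3 : ∀ y, Zr W x (j + 1) y = ∑ z, W.K 1 y z * ((1 + x (j + 1) z) * Zr W x j z) :=
    fun y => rfl
  simp only [mul_sub, Finset.sum_sub_distrib, mul_one, wt_sum]
  have h4 : ∑ y, wt W w m y * Zr W x (j + 1) y =
      ∑ z, wt W w (m + 1) z * ((1 + x (j + 1) z) * Zr W x j z) := by
    simp only [h3, wt_add W w m 1, Finset.mul_sum, Finset.sum_mul]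
    rw [Finset.sum_comm]
    refine Finset.sum_congr rfl fun y _ => Finset.sum_congr rfl fun x _ => by ring
  rw [h4]
  have h5 : ∑ z, wt W w (m + 1) z * ((1 + x (j + 1) z) * Zr W x j z) =
      ∑ z, wt W w (m + 1) z * Zr W x j z +
        ∑ z, wt W w (m + 1) z * Zr W x j z * x (j + 1) z := by
    rw [← Finset.sum_add_distrib]
    refine Finset.sum_congr rfl fun y _ => by ring
  rw [h5]
  ring

theorem XX_cut (W : Wlk V C0 N0) (w : V → ℝ) (T j : ℕ) (x : ℕ → V → ℝ)
    (h : Zr W x j = Zr W (cut j x) j) : XX W w T (cut j x) j = XX W w T x j := by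
  unfold XX
  rw [h]

theorem XX_zero (W : Wlk V C0 N0) (w : V → ℝ) (T : ℕ) (x : ℕ → V → ℝ) : XX W w T x 0 = 0 := by
  unfold XX
  refine Finset.sum_eq_zero fun z _ => ?_
  have : Zr W x 0 z = 1 := rfl
  rw [this]; ring

theorem rangeIcc (F : ℕ → ℕ → ℝ) (T : ℕ) :
    ∑ j ∈ range T, F (T - j) j = ∑ m ∈ Icc 1 T, F m (T - m) := by
  refine Finset.sum_nbij' (fun j => T - j) (fun m => T - m) ?_ ?_ ?_ ?_ ?_
  · intro j hj
    rw [mem_range] at hj
    rw [mem_Icc]; omega
  · intro m hm
    rw [mem_Icc] at hm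
    rw [mem_range]; omega
  · intro j hj
    rw [mem_range] at hj
    omega
  · intro m hm
    rw [mem_Icc] at hm
    omega
  · intro j hj
    rw [mem_range] at hj
    have : T - (T - j) = j := by omega
    simp only [this]

theorem UU_eq (s : ℝ) (n : ℕ) : UU s n = 1 + s * ∑ i ∈ range n, rr (n - i) * UU s i := by
  rw [UU, Finset.sum_range]

theorem DD_eq (s : ℝ) (m n : ℕ) :
    DD s m n = rr (m + n) + s * ∑ i ∈ range n, rr (n - i) * DD s m i := by
  rw [DD, Finset.sum_range]

section prob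

variable {Ω : Type} [MeasurableSpace Ω] {P : Measure Ω} [IsProbabilityMeasure P] {s2 κ : ℝ}
  {η : ℕ → V → Ω → ℝ}

theorem two_of_four {f : Ω → ℝ} (h : MemLp f 4 P) : MemLp f 2 P :=
  h.mono_exponent (by norm_num)

theorem memXX (hM : S_MEAS) (W : Wlk V C0 N0) (hη : Noise P s2 κ η) (w : V → ℝ) (T j : ℕ) :
    MemLp (fun ω => XX W w T (cfg η ω) j) 4 P := by
  obtain ⟨-, -, -, -, -, -, -, h8, -⟩ := hM V C0 N0 W Ω P s2 κ η hη
  unfold XX
  exact memLp_finsetSum _ fun z _ => ((h8 j z).sub (memLp_const 1)).const_mul _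

theorem XX2_step (hM : S_MEAS) (hI : S_IND) (hF : S_FRZ) (hA : S_ALG) (W : Wlk V C0 N0)
    (hη : Noise P s2 κ η) (w : V → ℝ) (hw : ∀ x, 0 ≤ w x) (T j : ℕ) (hj : j + 1 ≤ T) :
    ∫ ω, (XX W w T (cfg η ω) (j + 1)) ^ 2 ∂P =
      ∫ ω, (XX W w T (cfg η ω) j) ^ 2 ∂P +
        s2 * ∑ z, (wt W w (T - j) z) ^ 2 * ∫ ω, (Zr W (cfg η ω) j z) ^ 2 ∂P := by
  obtain ⟨-, hpos, hcut, hmeas, -, -, hcfg, h8, -⟩ := hM V C0 N0 W Ω P s2 κ η hη
  obtain ⟨-, hind, -⟩ := hI V Ω P s2 κ η hη j
  -- the function of the two independent variables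
  let f : (ℕ → V → ℝ) × (V → ℝ) → ℝ := fun q =>
    (XX W w T q.1 j + ∑ z, (wt W w (T - j) z * Zr W q.1 j z) * q.2 z) ^ 2
  have hXXm : Measurable (fun x : ℕ → V → ℝ => XX W w T x j) := by
    unfold XX
    exact Finset.measurable_sum _ fun z _ => ((hmeas j z).sub_const 1).const_mul _
  have hf : Measurable f := by
    refine Measurable.pow_const ?_ 2
    refine (hXXm.comp measurable_fst).add ?_
    refine Finset.measurable_sum _ fun z _ => ?_
    refine (((hmeas j z).comp measurable_fst).const_mul _).mul ?_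
    exact (measurable_pi_apply z).comp measurable_snd
  have hcutm : Measurable (fun x : ℕ → V → ℝ => cut j x) := by
    refine measurable_pi_lambda _ fun n => measurable_pi_lambda _ fun v => ?_
    unfold cut
    by_cases h : n ≤ j
    · simp only [h, if_true]
      exact (measurable_pi_apply v).comp (measurable_pi_apply n)
    · simp only [h, if_false]
      exact measurable_const
  have hX : Measurable (fun ω => cut j (cfg η ω)) := hcutm.comp hcfg
  have hY : Measurable (fun ω (v : V) => η (j + 1) v ω) :=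
    measurable_pi_lambda _ fun v => hη.meas _ v
  have hfe : ∀ ω, f (cut j (cfg η ω), fun v => η (j + 1) v ω) =
      (XX W w T (cfg η ω) (j + 1)) ^ 2 := by
    intro ω
    have h1 := XX_cut W w T j (cfg η ω) (hcut _ _)
    have h2 := XX_step W w T j hj (cfg η ω)
    simp only [f]
    rw [h1, ← hcut, h2]
    rfl
  have hint : Integrable (fun ω => f (cut j (cfg η ω), fun v => η (j + 1) v ω)) P := by
    simp only [hfe]
    exact (two_of_four (memXX hM W hη w T (j + 1))).integrable_sq
  obtain ⟨hmain, -, -⟩ := hF Ω (ℕ → V → ℝ) (V → ℝ) ℝ P (fun ω => cut j (cfg η ω))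
    (fun ω v => η (j + 1) v ω) f hX hY hf hind hint
  simp only [hfe] at hmain
  rw [hmain]
  -- the inner integral
  have hinner : ∀ ω, ∫ ω', f (cut j (cfg η ω), fun v => η (j + 1) v ω') ∂P =
      (XX W w T (cfg η ω) j) ^ 2 +
        s2 * ∑ z, (wt W w (T - j) z) ^ 2 * (Zr W (cfg η ω) j z) ^ 2 := by
    intro ω
    have hp : ∀ z, 0 ≤ wt W w (T - j) z * Zr W (cut j (cfg η ω)) j z := by
      intro z
      rw [← hcut]
      exact mul_nonneg (wt_nonneg W w hw _ z) (hpos (cfg η ω) j z fun n v => hη.gt n v ω).le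
    have h1 := (hA V Ω P s2 κ η hη (j + 1) (XX W w T (cut j (cfg η ω)) j) 0
      (fun z => wt W w (T - j) z * Zr W (cut j (cfg η ω)) j z)
      (fun z => wt W w (T - j) z * Zr W (cut j (cfg η ω)) j z) hp hp).1
    simp only [f]
    rw [h1, XX_cut W w T j (cfg η ω) (hcut _ _), ← hcut]
    simp only [mul_pow]
  simp only [hinner]
  have hZ2 : ∀ z, Integrable (fun ω => (Zr W (cfg η ω) j z) ^ 2) P := fun z =>
    (two_of_four (h8 j z)).integrable_sq
  rw [integral_add]
  · rw [integral_const_mul, integral_finsetSum]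
    · simp only [integral_const_mul]
    · intro z _
      exact (hZ2 z).const_mul _
  · exact (two_of_four (memXX hM W hη w T j)).integrable_sq
  · refine Integrable.const_mul ?_ _
    exact integrable_finsetSum _ fun z _ => (hZ2 z).const_mul _

theorem XX2_sum (hM : S_MEAS) (hI : S_IND) (hF : S_FRZ) (hA : S_ALG) (W : Wlk V C0 N0)
    (hη : Noise P s2 κ η) (w : V → ℝ) (hw : ∀ x, 0 ≤ w x) (T j : ℕ) (hj : j ≤ T) :
    ∫ ω, (XX W w T (cfg η ω) j) ^ 2 ∂P =
      s2 * ∑ i ∈ range j, ∑ z, (wt W w (T - i) z) ^ 2 * ∫ ω, (Zr W (cfg η ω) i z) ^ 2 ∂P := by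
  induction j with
  | zero => simp [XX_zero]
  | succ j ih =>
    rw [XX2_step hM hI hF hA W hη w hw T j hj, ih (by omega), Finset.sum_range_succ]
    ring

/-- the weight concentrated at one point -/
noncomputable def dl (z : V) : V → ℝ := fun x => if x = z then 1 else 0

omit [Fintype V] in
theorem dl_nonneg (z x : V) : 0 ≤ dl z x := by
  unfold dl
  split_ifs <;> norm_num

theorem wt_dl (W : Wlk V C0 N0) (z : V) (m : ℕ) (y : V) : wt W (dl z) m y = W.K m z y := by
  unfold wt dl
  simp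

theorem XX_dl (W : Wlk V C0 N0) (z : V) (j : ℕ) (x : ℕ → V → ℝ) :
    XX W (dl z) j x j = Zr W x j z - 1 := by
  unfold XX
  rw [Nat.sub_self, wt_zero]
  unfold dl
  simp

theorem Zr2 (hM : S_MEAS) (hI : S_IND) (hF : S_FRZ) (hA : S_ALG) (W : Wlk V C0 N0)
    (hη : Noise P s2 κ η) (j : ℕ) (hj : j ≤ N0) (z : V) :
    ∫ ω, (Zr W (cfg η ω) j z) ^ 2 ∂P = UU s2 j := by
  induction j using Nat.strong_induction_on generalizing z with
  | _ j ih =>
    obtain ⟨-, -, -, -, -, -, -, h8, h9, -⟩ := hM V C0 N0 W Ω P s2 κ η hη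
    have h1 := XX2_sum hM hI hF hA W hη (dl z) (dl_nonneg z) j j le_rfl
    simp only [XX_dl, wt_dl] at h1
    have h2 : ∫ ω, (Zr W (cfg η ω) j z - 1) ^ 2 ∂P = ∫ ω, (Zr W (cfg η ω) j z) ^ 2 ∂P - 1 := by
      have h3 : ∀ ω, (Zr W (cfg η ω) j z - 1) ^ 2 =
          (Zr W (cfg η ω) j z) ^ 2 - (2 * Zr W (cfg η ω) j z - 1) := fun ω => by ring
      simp only [h3]
      have hi1 : Integrable (fun ω => Zr W (cfg η ω) j z) P :=
        (h8 j z).integrable (by norm_num)
      have hi2 : Integrable (fun ω => 2 * Zr W (cfg η ω) j z - 1) P :=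
        (hi1.const_mul 2).sub (integrable_const 1)
      rw [integral_sub (two_of_four (h8 j z)).integrable_sq hi2, integral_sub (hi1.const_mul 2)
        (integrable_const 1), integral_const_mul, h9]
      simp
      norm_num
    rw [h2] at h1
    have h4 : ∑ i ∈ range j, ∑ y, (W.K (j - i) z y) ^ 2 * ∫ ω, (Zr W (cfg η ω) i y) ^ 2 ∂P =
        ∑ i ∈ range j, rr (j - i) * UU s2 i := by
      refine Finset.sum_congr rfl fun i hi => ?_
      rw [mem_range] at hi
      have h5 : ∀ y, ∫ ω, (Zr W (cfg η ω) i y) ^ 2 ∂P = UU s2 i :=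
        fun y => ih i hi (by omega) y
      simp only [h5]
      rw [← Finset.sum_mul, sumK_sq, W.K_ret _ _ (by omega)]
    rw [h4] at h1
    rw [UU_eq]
    linarith

/-- joint measurability of the forward weights -/
theorem fwd_meas (W : Wlk V C0 N0) {α : Type} [MeasurableSpace α] (T : ℕ) :
    ∀ (X : α → ℕ → V → ℝ) (w : α → V → ℝ), (∀ n v, Measurable fun a => X a n v) →
      (∀ v, Measurable fun a => w a v) → ∀ z, Measurable fun a => fwd W (X a) T (w a) z := by
  induction T with
  | zero => intro X w _ hw z; exact hw z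
  | succ T ih =>
    intro X w hX hw z
    refine ih X (fun a z => (1 + X a (T + 1) z) * wt W (w a) 1 z) hX ?_ z
    intro v
    refine ((hX _ v).const_add 1).mul ?_
    unfold wt
    exact Finset.measurable_sum _ fun x _ => (hw x).mul_const _

/-- one step of noise on a weight -/
noncomputable def stepw (W : Wlk V C0 N0) (w : V → ℝ) (y : V → ℝ) : V → ℝ :=
  fun z => (1 + y z) * wt W w 1 z

theorem fwd_succ (W : Wlk V C0 N0) (x : ℕ → V → ℝ) (T : ℕ) (w : V → ℝ) :
    fwd W x (T + 1) w = fwd W x T (stepw W w (x (T + 1))) := rfl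

theorem wt_stepw (W : Wlk V C0 N0) (w : V → ℝ) (y : V → ℝ) (n : ℕ) (v : V) :
    wt W (stepw W w y) n v = wt W w (n + 1) v + ∑ z, (wt W w 1 z * W.K n z v) * y z := by
  rw [add_comm n 1, wt_add W w 1 n, ← Finset.sum_add_distrib]
  have h1 : wt W (stepw W w y) n v = ∑ z, stepw W w y z * W.K n z v := rfl
  rw [h1]
  simp only [stepw]
  refine Finset.sum_congr rfl fun z _ => by ring

theorem ov_stepw1 (hA : S_ALG) (W : Wlk V C0 N0)
    (hη : Noise P s2 κ η) (w : V → ℝ) (hw : ∀ x, 0 ≤ w x) (T n : ℕ) (v : V) :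
    ∫ ω, (wt W w (n + 1) v + ∑ z, (wt W w 1 z * W.K n z v) * η T z ω) ^ 2 ∂P =
      (wt W w (n + 1) v) ^ 2 + s2 * ∑ z, (wt W w 1 z * W.K n z v) ^ 2 := by
  have hp : ∀ z, 0 ≤ wt W w 1 z * W.K n z v := fun z =>
    mul_nonneg (wt_nonneg W w hw 1 z) (W.K_nonneg _ _ _)
  have h := (hA V Ω P s2 κ η hη T (wt W w (n + 1) v) 0 (fun z => wt W w 1 z * W.K n z v)
      (fun z => wt W w 1 z * W.K n z v) hp hp).1
  exact h

theorem ov_stepw2 (hM : S_MEAS) (W : Wlk V C0 N0)
    (hη : Noise P s2 κ η) (w : V → ℝ) (T n : ℕ) (v : V) :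
    Integrable (fun ω =>
      (wt W w (n + 1) v + ∑ z, (wt W w 1 z * W.K n z v) * η T z ω) ^ 2) P := by
  obtain ⟨hη4, -⟩ := hM V C0 N0 W Ω P s2 κ η hη
  have h1 : ∀ z ∈ (Finset.univ : Finset V),
      MemLp (fun ω => (wt W w 1 z * W.K n z v) * η T z ω) 4 P :=
    fun z _ => (hη4 T z).const_mul (wt W w 1 z * W.K n z v)
  have h2 : MemLp (fun ω => ∑ z, (wt W w 1 z * W.K n z v) * η T z ω) 4 P :=
    memLp_finsetSum Finset.univ h1
  have h3 : MemLp (fun _ : Ω => wt W w (n + 1) v) 4 P := memLp_const (wt W w (n + 1) v)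
  have hmem := h3.add h2
  exact (two_of_four hmem).integrable_sq

theorem ov_stepw (hA : S_ALG) (hM : S_MEAS) (W : Wlk V C0 N0)
    (hη : Noise P s2 κ η) (w : V → ℝ) (hw : ∀ x, 0 ≤ w x) (T n : ℕ) (hn : n ≤ N0) :
    Integrable (fun ω => ov W (stepw W w (fun z => η T z ω)) n) P ∧
    ∫ ω, ov W (stepw W w (fun z => η T z ω)) n ∂P = ov W w (n + 1) + s2 * (rr n * ov W w 1) := by
  have hint := fun v => ov_stepw2 hM W hη w T n v
  have hval := fun v => ov_stepw1 hA W hη w hw T n v
  have hov : ∀ ω, ov W (stepw W w (fun z => η T z ω)) n =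
      ∑ v, (wt W w (n + 1) v + ∑ z, (wt W w 1 z * W.K n z v) * η T z ω) ^ 2 := by
    intro ω
    unfold ov
    simp only [wt_stepw]
  simp only [hov]
  refine ⟨integrable_finsetSum _ fun v _ => hint v, ?_⟩
  rw [integral_finsetSum _ fun v _ => hint v]
  simp only [hval]
  rw [Finset.sum_add_distrib, ← Finset.mul_sum]
  have hsq : ∑ v, ∑ z, (wt W w 1 z * W.K n z v) ^ 2 = rr n * ∑ z, (wt W w 1 z) ^ 2 := by
    rw [Finset.sum_comm, Finset.mul_sum]
    refine Finset.sum_congr rfl fun z _ => ?_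
    simp only [mul_pow]
    rw [← Finset.mul_sum, sumK_sq, W.K_ret _ _ hn]
    ring
  rw [hsq]
  rfl
theorem ov_fwd (hM : S_MEAS) (hI : S_IND) (hF : S_FRZ) (hA : S_ALG) (W : Wlk V C0 N0)
    (hη : Noise P s2 κ η) (m : ℕ) (T : ℕ) : m + T ≤ N0 → ∀ (w : V → ℝ), (∀ x, 0 ≤ w x) →
    ∫ ω, ov W (fwd W (cfg η ω) T w) m ∂P =
      ov W w (m + T) + s2 * ∑ j ∈ range T, ov W w (T - j) * DD s2 m j := by
  induction T with
  | zero =>
    intro _ w _
    have : ∀ ω, fwd W (cfg η ω) 0 w = w := fun ω => rfl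
    simp [this]
  | succ T ih =>
    intro hT w hw
    obtain ⟨hη4, -, -, -, -, hcut, hcfg, -, -, h10, -⟩ := hM V C0 N0 W Ω P s2 κ η hη
    obtain ⟨-, hind, -⟩ := hI V Ω P s2 κ η hη T
    let f : (V → ℝ) × (ℕ → V → ℝ) → ℝ := fun q => ov W (fwd W q.2 T (stepw W w q.1)) m
    have hf : Measurable f := by
      simp only [f]
      unfold ov wt
      refine Finset.measurable_sum _ fun z _ => ?_
      refine Measurable.pow_const ?_ 2
      refine Finset.measurable_sum _ fun x _ => ?_
      refine Measurable.mul_const ?_ _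
      refine fwd_meas W T (fun q : (V → ℝ) × (ℕ → V → ℝ) => q.2) (fun q => stepw W w q.1) ?_ ?_ x
      · intro n v
        exact (measurable_pi_apply v).comp ((measurable_pi_apply n).comp measurable_snd)
      · intro v
        unfold stepw
        exact (((measurable_pi_apply v).comp measurable_fst).const_add 1).mul_const _
    have hcutm : Measurable (fun x : ℕ → V → ℝ => cut T x) := by
      refine measurable_pi_lambda _ fun n => measurable_pi_lambda _ fun v => ?_
      unfold cut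
      by_cases h : n ≤ T
      · simp only [h, if_true]
        exact (measurable_pi_apply v).comp (measurable_pi_apply n)
      · simp only [h, if_false]
        exact measurable_const
    have hY : Measurable (fun ω => cut T (cfg η ω)) := hcutm.comp hcfg
    have hX : Measurable (fun ω (v : V) => η (T + 1) v ω) :=
      measurable_pi_lambda _ fun v => hη.meas _ v
    have hfe : ∀ ω, f (fun v => η (T + 1) v ω, cut T (cfg η ω)) =
        ov W (fwd W (cfg η ω) (T + 1) w) m := by
      intro ω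
      simp only [f]
      rw [← hcut, fwd_succ]
      rfl
    have hint : Integrable (fun ω => f (fun v => η (T + 1) v ω, cut T (cfg η ω))) P := by
      simp only [hfe]
      unfold ov
      refine integrable_finsetSum _ fun z _ => ?_
      have h11 : MemLp (fun ω => wt W (fwd W (cfg η ω) (T + 1) w) m z) 4 P := by
        unfold wt
        exact memLp_finsetSum _ fun x _ => (h10 w (T + 1) x).mul_const _
      exact (two_of_four h11).integrable_sq
    obtain ⟨hmain, -, -⟩ := hF Ω (V → ℝ) (ℕ → V → ℝ) ℝ P (fun ω v => η (T + 1) v ω)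
      (fun ω => cut T (cfg η ω)) f hX hY hf hind.symm hint
    simp only [hfe] at hmain
    rw [hmain]
    have hinner : ∀ ω, ∫ ω', f (fun v => η (T + 1) v ω, cut T (cfg η ω')) ∂P =
        ov W (stepw W w (fun z => η (T + 1) z ω)) (m + T) +
          s2 * ∑ j ∈ range T, ov W (stepw W w (fun z => η (T + 1) z ω)) (T - j) * DD s2 m j := by
      intro ω
      rw [← ih (by omega) (stepw W w (fun z => η (T + 1) z ω)) ?_]
      · refine integral_congr_ae (Filter.Eventually.of_forall fun ω' => ?_)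
        simp only [f]
        rw [← hcut]
      · intro z
        unfold stepw
        have := hη.gt (T + 1) z ω
        exact mul_nonneg (by linarith) (wt_nonneg W w hw 1 z)
    simp only [hinner]
    have hs : ∀ n, n ≤ N0 → _ := fun n hn => ov_stepw hA hM W hη w hw (T + 1) n hn
    rw [integral_add (hs (m + T) (by omega)).1, integral_const_mul, integral_finsetSum]
    · rw [(hs (m + T) (by omega)).2]
      have h12 : ∀ j ∈ range T,
          ∫ ω, ov W (stepw W w (fun z => η (T + 1) z ω)) (T - j) * DD s2 m j ∂P =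
            ov W w (T + 1 - j) * DD s2 m j + s2 * ov W w 1 * (rr (T - j) * DD s2 m j) := by
        intro j hj
        rw [mem_range] at hj
        rw [integral_mul_const, (hs (T - j) (by omega)).2]
        have : T - j + 1 = T + 1 - j := by omega
        rw [this]
        ring
      rw [Finset.sum_congr rfl h12, Finset.sum_add_distrib, ← Finset.mul_sum,
        Finset.sum_range_succ]
      have h13 : T + 1 - T = 1 := by omega
      rw [h13, DD_eq s2 m T, ← add_assoc]
      ring
    · intro j hj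
      rw [mem_range] at hj
      exact (hs (T - j) (by omega)).1.mul_const _
    · refine Integrable.const_mul ?_ _
      refine integrable_finsetSum _ fun j hj => ?_
      rw [mem_range] at hj
      exact (hs (T - j) (by omega)).1.mul_const _

end prob

/-- Task M2. -/
theorem t_M2 : S_MEAS → S_IND → S_FRZ → S_ALG → S_OV → S_M2 := by
  intro hM hI hF hA _ V _ _ C0 N0 W Ω _ P _ s2 κ η _ hη w hw T hT
  obtain ⟨-, -, -, -, -, -, -, h8, h9, -⟩ := hM V C0 N0 W Ω P s2 κ η hη
  refine ⟨?_, ?_, ?_⟩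
  · unfold XX
    have hi1 : ∀ z, Integrable (fun ω => Zr W (cfg η ω) T z - 1) P := fun z =>
      ((h8 T z).integrable (by norm_num)).sub (integrable_const 1)
    rw [integral_finsetSum _ fun z _ => (hi1 z).const_mul _]
    refine Finset.sum_eq_zero fun z _ => ?_
    rw [integral_const_mul, integral_sub ((h8 T z).integrable (by norm_num))
      (integrable_const 1), h9]
    simp
  · rw [XX2_sum hM hI hF hA W hη w hw T T le_rfl]
    have h1 : ∀ i ∈ range T,
        ∑ z, (wt W w (T - i) z) ^ 2 * ∫ ω, (Zr W (cfg η ω) i z) ^ 2 ∂P =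
          ov W w (T - i) * UU s2 i := by
      intro i hi
      rw [mem_range] at hi
      have h5 : ∀ y, ∫ ω, (Zr W (cfg η ω) i y) ^ 2 ∂P = UU s2 i :=
        fun y => Zr2 hM hI hF hA W hη i (by omega) y
      simp only [h5]
      rw [← Finset.sum_mul]
      rfl
    rw [Finset.sum_congr rfl h1, rangeIcc (fun a b => ov W w a * UU s2 b) T]
  · intro m hm
    rw [ov_fwd hM hI hF hA W hη m T hm w hw,
      rangeIcc (fun a b => ov W w a * DD s2 m b) T]

end Pool.Agent.H200.QC
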