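import Pool.Agent.H815.QC.Stm

/-!
# Project QC (helper815), task P7
-/

set_option autoImplicit false

namespace Pool.Agent.H200.QCP7

open Pool.Agent.Y110.FJ Pool.Agent.T2H65.GP Pool.Agent.H815.QC

/-- A nontrivial element with support in `cl v`, and its minimal support. -/
theorem supp (x : P1) (hx : x ≠ 1) (v : Fin 5) (hv : x ∈ std Γ1 B1 (cl v)) :
    ∃ (T : V1 → Prop) (c : P1), Mn Γ1 B1 T (c⁻¹ * x * c) ∧ (∀ a, T a → cl v a) ∧ ∃ a, T a := by
  obtain ⟨T, c, hc⟩ := exists_Mn Γ1 B1 x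
  refine ⟨T, c, hc, ?_, ?_⟩
  · intro a ha
    refine Mn_sub Γ1 B1 (c := c⁻¹) hc ?_ a ha
    have e : (c⁻¹)⁻¹ * (c⁻¹ * x * c) * c⁻¹ = x := by group
    rw [e]
    exact hv
  · by_contra h
    push Not at h
    have h1 := std_bot Γ1 B1 h hc.1
    apply hx
    have e : x = c * (c⁻¹ * x * c) * c⁻¹ := by group
    rw [e, h1]
    group

theorem ne_one_of_NA {N : Type} [Group N] {H : Subgroup N} (h : NA H) : ∃ a ∈ H, a ≠ 1 := by
  obtain ⟨a, ha, b, _, hab⟩ := h
  refine ⟨a, ha, ?_⟩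
  rintro rfl
  apply hab
  rw [one_mul, mul_one]

theorem conj_ne {N : Type} [Group N] {α : N →* P1} (hα : Function.Injective α) (g : P1) {n : N}
    (hn : n ≠ 1) : g⁻¹ * α n * g ≠ 1 := by
  intro h
  apply hn
  apply hα
  rw [map_one]
  have e : α n = g * (g⁻¹ * α n * g) * g⁻¹ := by group
  rw [e, h]
  group

theorem part1 {N : Type} [Group N] {α : N →* P1} (hα : Function.Injective α)
    (hNA : ∀ v g, NA (Hs α v g)) (v : Fin 5) (g : P1) (v' : Fin 5) (g' : P1)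
    (h : Hs α v g ≤ Hs α v' g') : v = v' := by
  obtain ⟨n, hn, hn1⟩ := ne_one_of_NA (hNA v g)
  have h1 := mem_pb.1 hn
  have h2 := mem_pb.1 (h hn)
  obtain ⟨T, c, hc, hT, a, ha⟩ := supp _ (conj_ne hα g hn1) v h1
  have h3 : cl v' a := by
    refine Mn_sub Γ1 B1 (c := c⁻¹ * g⁻¹ * g') hc ?_ a ha
    have e : (c⁻¹ * g⁻¹ * g')⁻¹ * (c⁻¹ * (g⁻¹ * α n * g) * c) * (c⁻¹ * g⁻¹ * g') =
        g'⁻¹ * α n * g' := by group
    rw [e]
    exact h2
  have h4 := hT a ha
  exact h4.symm.trans h3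

theorem Hs_le_Ks {N : Type} [Group N] (α : N →* P1) (v w : Fin 5) (g : P1)
    (h : ∀ a, cl w a → nb v a) : Hs α w g ≤ Ks α v g := by
  intro n hn
  exact mem_pb.2 (std_mono Γ1 B1 h (mem_pb.1 hn))

theorem P7_proof (hB2 : S_B2) (hB3 : S_B3) (hP1 : S_P1) : Pool.Agent.H815.QC.S_P7 := by
  have _ := hB2
  intro N _ α hα hN
  have hinj := hα.1
  have hNA : ∀ v g, NA (Hs α v g) := fun v g => (hP1 N α hα hN v g).2.2.1
  have p1 := part1 hinj hNA
  refine ⟨p1, ?_, ?_⟩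
  · intro v g v' g' h
    have h1 := p1 (v + 1) g v' g' ((Hs_le_Ks α v (v + 1) g fun a ha => Or.inl ha).trans h)
    have h2 := p1 (v - 1) g v' g' ((Hs_le_Ks α v (v - 1) g fun a ha => Or.inr (by
      have h3 : a.1 = v - 1 := ha
      rw [h3, sub_add_cancel])).trans h)
    have h3 : v + 1 = v - 1 := h1.trans h2.symm
    revert h3
    have : ∀ v : Fin 5, ¬ (v + 1 = v - 1) := by decide
    exact this v
  · intro v v' v'' y y₁ hv' _ hy hy₁ hEq
    have hv'' : v' = v'' := p1 v' y v'' y₁ hEq.le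
    refine ⟨hv'', ?_⟩
    subst hv''
    obtain ⟨n, hn, hn1⟩ := ne_one_of_NA (hNA v' y)
    have hn2 : n ∈ Hs α v' y₁ := hEq ▸ hn
    have hx := mem_pb.1 hn
    have hx₁ := mem_pb.1 hn2
    set x : P1 := y⁻¹ * α n * y with hxdef
    have hx1 : x ≠ 1 := conj_ne hinj y hn1
    set t : P1 := y⁻¹ * y₁ with ht
    have htm : t ∈ std Γ1 B1 (nb v) := mul_mem (inv_mem hy) hy₁
    have htx : t⁻¹ * x * t ∈ std Γ1 B1 (cl v') := by
      have e : t⁻¹ * x * t = y₁⁻¹ * α n * y₁ := by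
        rw [ht, hxdef]
        group
      rw [e]
      exact hx₁
    set t' : P1 := er Γ1 B1 (cl v') t with ht'
    have ht'm : t' ∈ std Γ1 B1 (cl v') := er_mem Γ1 B1 _ _
    have ht'n : t' ∈ std Γ1 B1 (nb v) := by
      have e : t' = er Γ1 B1 (fun a => cl v' a ∧ nb v a) t := by
        rw [ht', ← er_er, (mem_std Γ1 B1).1 htm]
      rw [e]
      exact std_mono Γ1 B1 (fun a ha => ha.2) (er_mem Γ1 B1 _ _)
    have hcomm : t'⁻¹ * x * t' = t⁻¹ * x * t := by
      have e := (mem_std Γ1 B1).1 htx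
      rw [map_mul, map_mul, map_inv, (mem_std Γ1 B1).1 hx] at e
      exact e
    set u : P1 := t * t'⁻¹ with hu
    have hun : u ∈ std Γ1 B1 (nb v) := mul_mem htm (inv_mem ht'n)
    have hux : u * x = x * u := by
      have e1 : x = t * (t⁻¹ * x * t) * t⁻¹ := by group
      have e2 : t * (t'⁻¹ * x * t') * t⁻¹ = u * x * u⁻¹ := by
        rw [hu]
        group
      have e3 : u * x * u⁻¹ = x := by
        rw [← e2, hcomm, ← e1]
      calc u * x = (u * x * u⁻¹) * u := by group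
        _ = x * u := by rw [e3]
    -- the minimal support
    obtain ⟨T, c, hc, hT, a, ha⟩ := supp x hx1 v' hx
    set c' : P1 := er Γ1 B1 (cl v') c with hc'
    have hc'm : c' ∈ std Γ1 B1 (cl v') := er_mem Γ1 B1 _ _
    have hz : Mn Γ1 B1 T (c'⁻¹ * x * c') := by
      refine ⟨std_mono Γ1 B1 (fun b hb => hb.2) (conj_std Γ1 B1 hx hc.1), ?_⟩
      intro T' h1 h2 d hd
      refine hc.2 T' h1 h2 (c⁻¹ * c' * d) ?_
      have e : (c⁻¹ * c' * d)⁻¹ * (c⁻¹ * x * c) * (c⁻¹ * c' * d) = d⁻¹ * (c'⁻¹ * x * c') * d := by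
        group
      rw [e]
      exact hd
    obtain ⟨y1, hy1, y2, hy2, hyy, -⟩ := hB3 V1 Γ1 B1 T _ hz (c'⁻¹ * u * c') (by
      calc c'⁻¹ * u * c' * (c'⁻¹ * x * c') = c'⁻¹ * (u * x) * c' := by group
        _ = c'⁻¹ * (x * u) * c' := by rw [hux]
        _ = c'⁻¹ * x * c' * (c'⁻¹ * u * c') := by group)
    have hy2' : y2 ∈ std Γ1 B1 (nb v') := by
      refine std_mono Γ1 B1 (fun b hb => ?_) hy2
      have h1 := hb a ha
      have h2 : a.1 = v' := hT a ha
      rcases h1 with h1 | h1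
      · right
        rw [← h2]
        exact h1
      · left
        rw [← h2]
        exact h1
    have hjoin : ∀ p q : V1, cl v' p → nb v' q → Γ1.Adj p q := by
      intro p q hp hq
      have hp' : p.1 = v' := hp
      rcases hq with h1 | h1
      · left
        rw [h1, hp']
      · right
        rw [hp', h1]
    have hcy : c' * y2 = y2 * c' := std_comm Γ1 B1 hjoin hc'm hy2'
    have hu2 : u = (c' * y1 * c'⁻¹) * y2 := by
      have e1 : u = c' * (c'⁻¹ * u * c') * c'⁻¹ := by group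
      have e2 : y2 * c'⁻¹ = c'⁻¹ * y2 := by
        calc y2 * c'⁻¹ = c'⁻¹ * (c' * y2) * c'⁻¹ := by group
          _ = c'⁻¹ * (y2 * c') * c'⁻¹ := by rw [hcy]
          _ = c'⁻¹ * y2 := by group
      calc u = c' * (c'⁻¹ * u * c') * c'⁻¹ := e1
        _ = c' * (y1 * y2) * c'⁻¹ := by rw [hyy]
        _ = c' * y1 * (y2 * c'⁻¹) := by group
        _ = (c' * y1 * c'⁻¹) * y2 := by rw [e2]; group
    have hu1 : c' * y1 * c'⁻¹ ∈ std Γ1 B1 (cl v') :=
      mul_mem (mul_mem hc'm (std_mono Γ1 B1 hT hy1)) (inv_mem hc'm)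
    have hu3 : u ∈ std Γ1 B1 (cl v') := by
      have e1 : er Γ1 B1 (nb v) u = u := (mem_std Γ1 B1).1 hun
      have e2 : er Γ1 B1 (nb v) y2 = 1 := by
        have e3 : er Γ1 B1 (nb v) y2 = er Γ1 B1 (fun b => nb v b ∧ nb v' b) y2 := by
          rw [← er_er, (mem_std Γ1 B1).1 hy2']
        rw [e3]
        refine std_bot Γ1 B1 (T := fun b => nb v b ∧ nb v' b) ?_ (er_mem Γ1 B1 _ _)
        rintro b ⟨h1, h2⟩
        have key : ∀ v v' b : Fin 5, (v' = v + 1 ∨ v = v' + 1) → (b = v + 1 ∨ v = b + 1) →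
            (b = v' + 1 ∨ v' = b + 1) → False := by decide
        exact key v v' b.1 hv' h1 h2
      have e4 : u = er Γ1 B1 (nb v) (c' * y1 * c'⁻¹) := by
        conv_lhs => rw [← e1, hu2, map_mul, e2, mul_one]
      have e5 : er Γ1 B1 (nb v) (c' * y1 * c'⁻¹) =
          er Γ1 B1 (fun b => nb v b ∧ cl v' b) (c' * y1 * c'⁻¹) := by
        rw [← er_er, (mem_std Γ1 B1).1 hu1]
      rw [e4, e5]
      exact std_mono Γ1 B1 (fun b hb => hb.2) (er_mem Γ1 B1 _ _)
    have ht2 : t = u * t' := by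
      rw [hu]
      group
    rw [ht2]
    exact mul_mem hu3 ht'm

end Pool.Agent.H200.QCP7
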